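import Pool.Agent.MWK.Stmts

set_option autoImplicit false

namespace Pool.Agent.MWK.H77

open Pool.Agent.Helper14_MV Pool.Agent.Helper2_MV

theorem step {θ : FIC} (hk : Kc θ) (P Q : List ℕ) (x : ℕ) (h : 2 ≤ P.count x) :
    RR θ (P ++ x :: Q) (P ++ Q) := by
  have hx : x ∈ P := List.count_pos_iff.1 (by omega)
  obtain ⟨a, P', rfl, hxa⟩ := List.eq_append_cons_of_mem hx
  have h2 : 1 ≤ P'.count x := by
    rw [List.count_append, List.count_cons_self, List.count_eq_zero_of_not_mem hxa] at h
    omega
  obtain ⟨b, c, rfl, -⟩ := List.eq_append_cons_of_mem (List.count_pos_iff.1 h2)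
  have h1 : RR θ (x :: (b ++ [x])) (x :: (b ++ [x, x])) := by
    have := hk.g.sub (fun n => if n = 0 then [x] else b)
    simpa using this
  have h3 : RR θ (x :: x :: c) (x :: x :: (c ++ [x])) := by
    have := hk.e.sub (fun n => if n = 0 then [x] else c)
    simpa using this
  have k1 : RR θ (a ++ (x :: (b ++ [x])) ++ (c ++ Q)) (a ++ (x :: (b ++ [x, x])) ++ (c ++ Q)) :=
    ((RR.refl a).append h1).append (RR.refl _)
  have k2 : RR θ (a ++ (x :: b) ++ (x :: x :: c) ++ Q) (a ++ (x :: b) ++ (x :: x :: (c ++ [x])) ++ Q) :=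
    ((RR.refl _).append h3).append (RR.refl _)
  have k3 : RR θ (a ++ (x :: (b ++ [x, x])) ++ (c ++ x :: Q))
      (a ++ (x :: (b ++ [x])) ++ (c ++ x :: Q)) :=
    ((RR.refl a).append h1.symm).append (RR.refl _)
  simp only [List.append_assoc, List.cons_append, List.nil_append] at k1 k2 k3 ⊢
  exact θ.symm (θ.trans k1 (θ.trans k2 k3))

theorem fre : FreStmt := by
  intro θ hk P M Q
  induction M generalizing P with
  | nil =>
    intro _
    rw [List.append_nil]
    exact RR.refl _
  | cons x M ih =>
    intro h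
    have h1 := ih (P ++ [x]) (by
      intro l hl
      rw [List.count_append]
      have := h l (by simp [hl])
      omega)
    have h2 := step hk P Q x (h x (by simp))
    have e : P ++ x :: M ++ Q = P ++ [x] ++ M ++ Q := by simp
    have e2 : P ++ x :: Q = P ++ [x] ++ Q := by simp
    rw [e]
    rw [e2] at h2
    exact θ.trans h1 h2

end Pool.Agent.MWK.H77
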